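import Mathlib

/-!
# Counting permutations that strongly avoid 321 and 1342

For every `n ≥ 1` the number of the permutations `π` of `n` letters such that `π` and `π ^ 2` avoid
`321` and `1342` is `2 F_{n+2} - n - 2`.

Proof. Let `n ≥ 3`. The permutations with the last letter fixed correspond to those of size `n - 1`;
the ones that exchange the last two letters correspond to those of size `n - 2`; and all the others are
the `n - 1` nontrivial rotations `i ↦ i + k` modulo `n`.
-/

set_option autoImplicit false

namespace Pool.Agent.Results.MP_aa036a_co.StrongAvoidance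

open Equiv

/-- An occurrence of the pattern `τ` (a word with distinct letters) in `π`: an increasing choice
`f` of the indices such that `π (f j) < π (f k)` exactly when `τ j < τ k`. -/
def Contains {n m : ℕ} (π : Perm (Fin n)) (τ : Fin m → ℕ) : Prop :=
  ∃ f : Fin m → Fin n, StrictMono f ∧ ∀ j k : Fin m, π (f j) < π (f k) ↔ τ j < τ k

/-- `π` strongly avoids `321` and `1342`: both `π` and `π ∘ π` avoid both patterns. -/
def StronglyAvoids {n : ℕ} (π : Perm (Fin n)) : Prop :=
  ¬ Contains π ![3, 2, 1] ∧ ¬ Contains π ![1, 3, 4, 2] ∧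
    ¬ Contains (π * π) ![3, 2, 1] ∧ ¬ Contains (π * π) ![1, 3, 4, 2]

/-- avoidance on the first `n` places, for functions on the natural numbers -/
def Av (n : ℕ) (f : ℕ → ℕ) : Prop :=
  (∀ i j k, i < j → j < k → k < n → ¬ (f k < f j ∧ f j < f i)) ∧
    ∀ i j k l, i < j → j < k → k < l → l < n → ¬ (f i < f l ∧ f l < f j ∧ f j < f k)

/-- the permutations of `ℕ` which move only numbers below `n` and strongly avoid the patterns -/
def A (n : ℕ) (σ : Perm ℕ) : Prop :=
  (∀ i, n ≤ i → σ i = i) ∧ Av n σ ∧ Av n fun i => σ (σ i)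

lemma lt_of_fix {n : ℕ} {σ : Perm ℕ} (h : ∀ i, n ≤ i → σ i = i) {i : ℕ} (hi : i < n) : σ i < n := by
  by_contra hc
  push Not at hc
  have h1 := h _ hc
  have h2 := σ.injective h1
  omega

lemma exists_pos {n : ℕ} {σ : Perm ℕ} (h : ∀ i, n ≤ i → σ i = i) {v : ℕ} (hv : v < n) :
    ∃ x, x < n ∧ σ x = v := by
  refine ⟨σ.symm v, ?_, by simp⟩
  by_contra hc
  push Not at hc
  have h1 := h _ hc
  simp at h1
  omega

lemma fix_sq {n : ℕ} {σ : Perm ℕ} (h : ∀ i, n ≤ i → σ i = i) :
    ∀ i, n ≤ i → (σ * σ) i = i := by
  intro i hi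
  rw [Perm.mul_apply, h i hi, h i hi]

/-- the structure of a permutation that avoids both patterns and whose last value is small -/
lemma structureLemma {N : ℕ} {f : Perm ℕ} (hf : ∀ i, N ≤ i → f i = i) (ha : Av N f) {b c : ℕ}
    (hN : N = b + c + 2) (hc : 1 ≤ c) (hl : f (N - 1) = b) :
    ∃ t, t ≤ b ∧ (∀ i, i < c → f i = b + 1 + i) ∧ (∀ r, r < t → f (c + r) = r) ∧
      f (c + t) = N - 1 ∧ ∀ u, t ≤ u → u ≤ b → f (c + 1 + u) = u := by
  obtain ⟨p, hp, hp1⟩ := exists_pos hf (v := N - 2) (by omega)
  obtain ⟨q, hq, hq1⟩ := exists_pos hf (v := N - 1) (by omega)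
  have inj := f.injective
  -- large values are increasing
  have inc : ∀ i j, i < j → j < N → b < f i → b < f j → f i < f j := by
    intro i j hij hj h1 h2
    by_contra hcon
    have hne : f i ≠ f j := fun h => by have := inj h; omega
    have hj1 : j ≠ N - 1 := by rintro rfl; omega
    exact ha.1 i j (N - 1) hij (by omega) (by omega) ⟨by omega, by omega⟩
  have hpN : p ≠ N - 1 := by rintro rfl; omega
  have hqN : q ≠ N - 1 := by rintro rfl; omega
  have hpq : p < q := by
    by_contra hcon
    have hne : p ≠ q := by rintro rfl; omega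
    have := inc q p (by omega) hp (by omega) (by omega)
    omega
  have big : ∀ s, s ≤ p → b < f s := by
    intro s hs
    by_contra hcon
    have hne : f s ≠ b := by
      intro h
      have : f s = f (N - 1) := by rw [h, hl]
      have := inj this
      omega
    have hsp : s ≠ p := by rintro rfl; omega
    exact ha.2 s p q (N - 1) (by omega) hpq (by omega) (by omega) ⟨by omega, by omega, by omega⟩
  -- the first values
  have first : ∀ i, i ≤ p → f i = b + 1 + i := by
    intro i
    induction i using Nat.strong_induction_on with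
    | _ i ih =>
      intro hi
      have h1 : b < f i := big i hi
      have h2 : f i ≤ N - 2 := by
        rcases Nat.lt_or_ge i p with h | h
        · have := inc i p h hp h1 (by omega)
          omega
        · have : i = p := by omega
          rw [this]; omega
      -- lower bound
      have h3 : b + 1 + i ≤ f i := by
        rcases Nat.eq_zero_or_pos i with h0 | h0
        · omega
        · have h4 := ih (i - 1) (by omega) (by omega)
          have h5 := inc (i - 1) i (by omega) (by omega) (by omega) h1
          omega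
      by_contra hcon
      obtain ⟨x, hx, hx1⟩ := exists_pos hf (v := b + 1 + i) (by omega)
      rcases lt_trichotomy x i with h | h | h
      · have := ih x h (by omega)
        omega
      · rw [h] at hx1; exact hcon hx1
      · have := inc i x h hx h1 (by omega)
        omega
  have hpc : p + 1 = c := by
    have := first p le_rfl
    omega
  obtain ⟨t, rfl⟩ : ∃ t, q = c + t := ⟨q - c, by omega⟩
  have small : ∀ x, c ≤ x → x < N → x ≠ c + t → f x ≤ b := by
    intro x hx hxN hxq
    by_contra hcon
    have h1 : f x < N := lt_of_fix hf hxN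
    have h2 : f x ≠ N - 1 := fun h => hxq (inj (h.trans hq1.symm))
    have h3 : f (f x - (b + 1)) = f x := by
      rw [first _ (by omega)]; omega
    have := inj h3
    omega
  have dec : ∀ x y, c ≤ x → x < y → y < N → y ≠ c + t → x ≠ c + t → f x < f y := by
    intro x y hx hxy hy hyt hxt
    by_contra hcon
    have hne : f x ≠ f y := fun h => by have := inj h; omega
    have h0 := first 0 (by omega)
    have h1 := small x hx (by omega) hxt
    exact ha.1 0 x y (by omega) hxy hy ⟨by omega, by omega⟩
  have low : ∀ r, r < t → f (c + r) = r := by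
    intro r
    induction r using Nat.strong_induction_on with
    | _ r ih =>
      intro hr
      obtain ⟨x, hx, hx1⟩ := exists_pos hf (v := r) (by omega)
      have hxc : c ≤ x := by
        by_contra hcon
        have := first x (by omega)
        omega
      have hxt : x ≠ c + t := by rintro rfl; omega
      rcases lt_trichotomy x (c + r) with h | h | h
      · have := ih (x - c) (by omega) (by omega)
        rw [show c + (x - c) = x by omega] at this
        omega
      · rw [← h]; exact hx1
      · have h1 := dec (c + r) x (by omega) h hx hxt (by omega)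
        have h2 : ∀ r', r' < r → f (c + r) ≠ r' := by
          intro r' hr' h3
          have := inj (h3.trans (ih r' hr' (by omega)).symm)
          omega
        have := h2 (f (c + r)) (by omega)
        exact absurd rfl this
  have high : ∀ u, t ≤ u → u ≤ b → f (c + 1 + u) = u := by
    intro u
    induction u using Nat.strong_induction_on with
    | _ u ih =>
      intro hu hub
      obtain ⟨x, hx, hx1⟩ := exists_pos hf (v := u) (by omega)
      have hxc : c ≤ x := by
        by_contra hcon
        have := first x (by omega)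
        omega
      have hxt : x ≠ c + t := by rintro rfl; omega
      have hxl : c + t < x := by
        by_contra hcon
        have := low (x - c) (by omega)
        rw [show c + (x - c) = x by omega] at this
        omega
      rcases lt_trichotomy x (c + 1 + u) with h | h | h
      · have := ih (x - (c + 1)) (by omega) (by omega) (by omega)
        rw [show c + 1 + (x - (c + 1)) = x by omega] at this
        omega
      · rw [← h]; exact hx1
      · have h1 := dec (c + 1 + u) x (by omega) h hx hxt (by omega)
        exfalso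
        have h4 : f (c + 1 + u) < u := by omega
        rcases Nat.lt_or_ge (f (c + 1 + u)) t with h5 | h5
        · have := inj (low _ h5)
          omega
        · have := inj (ih _ h4 h5 (by omega))
          omega
  exact ⟨t, by omega, fun i hi => first i (by omega), low, hq1, high⟩

/-- if the last value is at most `N - 3`, then the permutation is a rotation -/
lemma rotation_of_small {N : ℕ} {σ : Perm ℕ} (hA : A N σ) {b c : ℕ}
    (hN : N = b + c + 2) (hc : 1 ≤ c) (hl : σ (N - 1) = b) :
    (∀ i, i < c → σ i = b + 1 + i) ∧ σ c = N - 1 ∧ ∀ u, u ≤ b → σ (c + 1 + u) = u := by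
  obtain ⟨hf, ha, hs⟩ := hA
  obtain ⟨t, htb, h1, h2, h3, h4⟩ := structureLemma hf ha hN hc hl
  rcases Nat.eq_zero_or_pos t with h0 | h0
  · subst h0
    exact ⟨h1, h3, fun u hu => h4 u (by omega) hu⟩
  exfalso
  have inj := σ.injective
  -- `ρ = σ²`
  have hρ : ∀ i, (σ * σ) i = σ (σ i) := fun i => rfl
  have hρf : ∀ i, N ≤ i → (σ * σ) i = i := fix_sq hf
  have hρa : Av N (σ * σ : Perm ℕ) := hs
  have hl' : (σ * σ) (N - 1) = σ b := by rw [hρ, hl]
  have hc0 : (σ * σ) c = b + 1 := by
    have e1 := h2 0 h0
    have e2 := h1 0 hc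
    rw [add_zero] at e1
    rw [hρ, e1, e2]
  rcases lt_trichotomy (b + 1) c with hbc | hbc | hbc
  · -- (A1)
    have e1 : σ b = 2 * b + 1 := by rw [h1 b (by omega)]; omega
    obtain ⟨t', ht', g1, g2, g3, g4⟩ := structureLemma (b := 2 * b + 1) (c := c - b - 1) hρf hρa
      (by omega) (by omega) (by rw [hl', e1])
    have e2 : (σ * σ) (c - b - 1 + t) = N - 1 := by
      rw [hρ, h1 (c - b - 1 + t) (by omega), show b + 1 + (c - b - 1 + t) = c + t by omega, h3]
    have e3 := (σ * σ).injective (g3.trans e2.symm)
    have e4 : t' = t := by omega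
    have e5 := g4 b (by omega) (by omega)
    rw [show c - b - 1 + 1 + b = c by omega, hc0] at e5
    omega
  · -- (B)
    have e1 : (σ * σ) t = N - 1 := by
      rw [hρ, h1 t (by omega), show b + 1 + t = c + t by omega, h3]
    have e2 : (σ * σ) (c + t) = b := by rw [hρ, h3, hl]
    exact hρa.1 t c (c + t) (by omega) (by omega) (by omega)
      ⟨by rw [e2, hc0]; omega, by rw [e1, hc0]; omega⟩
  · rcases lt_trichotomy b (c + t) with hbt | hbt | hbt
    · -- (A2)
      have e1 : σ b = b - c := by
        have := h2 (b - c) (by omega)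
        rwa [show c + (b - c) = b by omega] at this
      obtain ⟨t', ht', g1, g2, g3, g4⟩ := structureLemma (b := b - c) (c := 2 * c) hρf hρa
        (by omega) (by omega) (by rw [hl', e1])
      have e2 := g1 (c - 1) (by omega)
      have e3 : (σ * σ) (c - 1) = σ (b + c) := by
        rw [hρ, h1 (c - 1) (by omega), show b + 1 + (c - 1) = b + c by omega]
      rcases Nat.lt_or_ge t b with h5 | h5
      · have e4 := h4 (b - 1) (by omega) (by omega)
        rw [show c + 1 + (b - 1) = b + c by omega] at e4
        omega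
      · have : t = b := by omega
        subst this
        rw [show c + t = t + c by omega] at h3
        omega
    · -- (C)
      have e1 : (σ * σ) (c + t) = b := by rw [hρ, h3, hl]
      rcases Nat.lt_or_ge c t with h5 | h5
      · have e2 := h4 t le_rfl (by omega)
        have e3 := h2 (t - c) (by omega)
        rw [show c + (t - c) = t by omega] at e3
        have e4 : (σ * σ) (c + 1 + t) = t - c := by rw [hρ, e2, e3]
        exact hρa.1 c (c + t) (c + 1 + t) (by omega) (by omega) (by omega)
          ⟨by rw [e4, e1]; omega, by rw [e1, hc0]; omega⟩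
      · have e2 := h4 c h5 (by omega)
        have e3 := h2 0 h0
        rw [add_zero] at e3
        have e4 : (σ * σ) (c + 1 + c) = 0 := by rw [hρ, e2, e3]
        exact hρa.1 c (c + t) (c + 1 + c) (by omega) (by omega) (by omega)
          ⟨by rw [e4, e1]; omega, by rw [e1, hc0]; omega⟩
    · -- (A3)
      have e1 : σ b = b - c - 1 := by
        have := h4 (b - c - 1) (by omega) (by omega)
        rwa [show c + 1 + (b - c - 1) = b by omega] at this
      obtain ⟨t', ht', g1, g2, g3, g4⟩ := structureLemma (b := b - c - 1) (c := 2 * c + 1) hρf hρa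
        (by omega) (by omega) (by rw [hl', e1])
      have e2 := g1 c (by omega)
      rw [hc0] at e2
      omega

/-- if the last value is `N - 2`, then the last two letters are exchanged or the permutation is
a rotation -/
lemma rotation_of_second {N : ℕ} {σ : Perm ℕ} (hA : A N σ) (hN : 2 ≤ N) (hl : σ (N - 1) = N - 2)
    (h2 : σ (N - 2) ≠ N - 1) :
    σ 0 = N - 1 ∧ ∀ i, 1 ≤ i → i < N → σ i = i - 1 := by
  obtain ⟨hf, ha, hs⟩ := hA
  have inj := σ.injective
  obtain ⟨j, hj, hj1⟩ := exists_pos hf (v := N - 1) (by omega)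
  have hjN : j ≠ N - 1 := by rintro rfl; omega
  have hjN2 : j ≠ N - 2 := by rintro rfl; omega
  -- increasing after `j`
  have inc : ∀ x y, j < x → x < y → y < N → σ x < σ y := by
    intro x y hx hxy hy
    by_contra hcon
    have hne : σ x ≠ σ y := fun h => by have := inj h; omega
    have h5 : σ x < N := lt_of_fix hf (by omega)
    have h6 : σ x ≠ N - 1 := fun h => by have := inj (h.trans hj1.symm); omega
    exact ha.1 j x y hx hxy hy ⟨by omega, by omega⟩
  rcases Nat.eq_zero_or_pos j with h0 | h0
  · subst h0
    refine ⟨hj1, ?_⟩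
    have lo : ∀ i, 1 ≤ i → i < N → i - 1 ≤ σ i := by
      intro i
      induction i with
      | zero => omega
      | succ i ih =>
        intro h1 hi
        rcases Nat.eq_zero_or_pos i with h3 | h3
        · omega
        · have := ih h3 (by omega)
          have := inc i (i + 1) h3 (by omega) hi
          omega
    have hi' : ∀ k i, i + k = N - 1 → 1 ≤ i → σ i + k ≤ N - 2 := by
      intro k
      induction k with
      | zero => intro i h1 h3; rw [add_zero] at h1; rw [h1, hl]; omega
      | succ k ih =>
        intro i h1 h3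
        have := ih (i + 1) (by omega) (by omega)
        have := inc i (i + 1) h3 (by omega) (by omega)
        omega
    intro i h1 h3
    have := lo i h1 h3
    have := hi' (N - 1 - i) i (by omega) h1
    omega
  exfalso
  have hρ : ∀ i, (σ * σ) i = σ (σ i) := fun i => rfl
  have hρf : ∀ i, N ≤ i → (σ * σ) i = i := fix_sq hf
  have hρa : Av N (σ * σ : Perm ℕ) := hs
  -- the last value of `ρ`
  have hb : σ (N - 2) + 3 ≤ N := by
    have h5 : σ (N - 2) < N := lt_of_fix hf (by omega)
    have h6 : σ (N - 2) ≠ N - 2 := fun h => by have := inj (h.trans hl.symm); omega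
    omega
  obtain ⟨t, ht, g1, g2, g3, g4⟩ := structureLemma (b := σ (N - 2)) (c := N - 2 - σ (N - 2)) hρf hρa
    (by omega) (by omega) (by rw [hρ, hl])
  have e1 := g1 (N - 2 - σ (N - 2) - 1) (by omega)
  have e2 : (σ * σ) j = N - 2 := by rw [hρ, hj1, hl]
  have e3 : N - 2 - σ (N - 2) - 1 = j := by
    apply (σ * σ).injective
    rw [e1, e2]; omega
  -- the values after `j`
  have hi' : ∀ k i, i + k = N - 2 → j < i → σ i + k ≤ N - 3 - j := by
    intro k
    induction k with
    | zero => intro i h1 h3; rw [add_zero] at h1; rw [h1]; omega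
    | succ k ih =>
      intro i h1 h3
      have := ih (i + 1) (by omega) (by omega)
      have := inc i (i + 1) h3 (by omega) (by omega)
      omega
  have lo : ∀ r, j + 1 + r ≤ N - 2 → r ≤ σ (j + 1 + r) := by
    intro r
    induction r with
    | zero => intro _; omega
    | succ r ih =>
      intro h1
      have := ih (by omega)
      have := inc (j + 1 + r) (j + 1 + (r + 1)) (by omega) (by omega) (by omega)
      omega
  have val : ∀ r, j + 1 + r ≤ N - 2 → σ (j + 1 + r) = r := by
    intro r hr
    have := lo r hr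
    have := hi' (N - 2 - (j + 1 + r)) (j + 1 + r) (by omega) (by omega)
    omega
  -- the values before `j`
  have before : ∀ i, i < j → σ i < j := by
    intro i hi
    by_contra hcon
    have e4 := g1 i (by omega)
    rw [hρ] at e4
    have h5 : σ i < N := lt_of_fix hf (by omega)
    have h6 : σ i ≠ N - 1 := fun h => by have := inj (h.trans hj1.symm); omega
    rcases Nat.lt_or_ge j (σ i) with h7 | h7
    · have e5 := val (σ i - (j + 1)) (by omega)
      rw [show j + 1 + (σ i - (j + 1)) = σ i by omega] at e5
      omega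
    · have : σ i = j := by omega
      rw [this, hj1] at e4
      omega
  obtain ⟨x, hx, hx1⟩ := exists_pos hf (v := N - 3) (by omega)
  rcases lt_trichotomy x j with h | h | h
  · have := before x h
    omega
  · rw [h] at hx1; omega
  · rcases Nat.lt_or_ge x (N - 1) with h7 | h7
    · have e5 := val (x - (j + 1)) (by omega)
      rw [show j + 1 + (x - (j + 1)) = x by omega] at e5
      omega
    · have : x = N - 1 := by omega
      rw [this, hl] at hx1
      omega

/-- the rotation `i ↦ i + k` modulo `k + l` of the numbers below `k + l` -/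
def rot (k l : ℕ) : Perm ℕ where
  toFun i := if i < l then i + k else if i < l + k then i - l else i
  invFun i := if i < k then i + l else if i < k + l then i - k else i
  left_inv i := by
    dsimp only
    split_ifs <;> omega
  right_inv i := by
    dsimp only
    split_ifs <;> omega

lemma rot_apply (k l i : ℕ) :
    rot k l i = if i < l then i + k else if i < l + k then i - l else i := rfl

lemma rot_av (k l : ℕ) : Av (k + l) (rot k l) := by
  constructor
  · intro i j m hij hjm hm
    simp only [rot_apply]
    split_ifs <;> omega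
  · intro i j m p hij hjm hmp hp
    simp only [rot_apply]
    split_ifs <;> omega

lemma rot_sq (k l i : ℕ) : rot k l (rot k l i) =
    if 2 * k ≤ k + l then rot (2 * k) (l - k) i else rot (k - l) (2 * l) i := by
  simp only [rot_apply]
  split_ifs <;> omega

lemma rot_mem (k l : ℕ) : A (k + l) (rot k l) := by
  refine ⟨fun i hi => ?_, rot_av k l, ?_⟩
  · rw [rot_apply]
    split_ifs <;> omega
  · simp only [rot_sq]
    by_cases h : 2 * k ≤ k + l
    · simp only [if_pos h]
      have := rot_av (2 * k) (l - k)
      rwa [show 2 * k + (l - k) = k + l by omega] at this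
    · simp only [if_neg h]
      have := rot_av (k - l) (2 * l)
      rwa [show k - l + 2 * l = k + l by omega] at this

/-- the set counted -/
def S (n : ℕ) : Set (Perm ℕ) := {σ | A n σ}

/-- the nontrivial rotations of size `n + 2` -/
def R (n : ℕ) : Set (Perm ℕ) := (fun k => rot (k + 1) (n + 1 - k)) '' (Finset.range (n + 1) : Set ℕ)

lemma swap_val {n : ℕ} {π : Perm ℕ} (i : ℕ) : (π * swap n (n + 1)) i =
    if i = n then π (n + 1) else if i = n + 1 then π n else π i := by
  rw [Perm.mul_apply, swap_apply_def]
  split_ifs <;> rfl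

lemma swap_mem {n : ℕ} {π : Perm ℕ} (h : A n π) : A (n + 2) (π * swap n (n + 1)) := by
  obtain ⟨hf, ha, hs⟩ := h
  have v1 : (π * swap n (n + 1)) n = n + 1 := by
    rw [swap_val, if_pos rfl, hf _ (by omega)]
  have v2 : (π * swap n (n + 1)) (n + 1) = n := by
    rw [swap_val, if_neg (by omega), if_pos rfl, hf _ (by omega)]
  have v3 : ∀ i, i < n → (π * swap n (n + 1)) i = π i := by
    intro i hi
    rw [swap_val, if_neg (by omega), if_neg (by omega)]
  have v4 : ∀ i, i < n → π i < n := fun i hi => lt_of_fix hf hi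
  -- a function equal to one that avoids the patterns below `n` and preserving this
  have key : ∀ f g : ℕ → ℕ, Av n g → (∀ i, i < n → f i = g i) → (∀ i, i < n → g i < n) →
      (f n = n + 1 ∧ f (n + 1) = n ∨ f n = n ∧ f (n + 1) = n + 1) → Av (n + 2) f := by
    intro f g hg h1 h2 h3
    have h4 : ∀ i, i < n → f i < n := fun i hi => by rw [h1 i hi]; exact h2 i hi
    constructor
    · rintro i j k hij hjk hk ⟨h5, h6⟩
      rcases Nat.lt_or_ge k n with h7 | h7
      · exact hg.1 i j k hij hjk h7 ⟨by rw [← h1 k h7, ← h1 j (by omega)]; exact h5,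
          by rw [← h1 i (by omega), ← h1 j (by omega)]; exact h6⟩
      · have a1 : f k = n ∨ f k = n + 1 := by
          rcases (by omega : k = n ∨ k = n + 1) with h | h <;> rw [h] <;> omega
        have a2 : i < n := by omega
        have := h4 i a2
        omega
    · rintro i j k l hij hjk hkl hl ⟨h5, h6, h7⟩
      rcases Nat.lt_or_ge l n with h8 | h8
      · exact hg.2 i j k l hij hjk hkl h8 ⟨by rw [← h1 i (by omega), ← h1 l (by omega)]; exact h5,
          by rw [← h1 l (by omega), ← h1 j (by omega)]; exact h6,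
          by rw [← h1 k (by omega), ← h1 j (by omega)]; exact h7⟩
      · have a1 : f l = n ∨ f l = n + 1 := by
          rcases (by omega : l = n ∨ l = n + 1) with h | h <;> rw [h] <;> omega
        have a2 : j < n := by omega
        have := h4 j a2
        omega
  refine ⟨?_, key _ π ha v3 v4 (Or.inl ⟨v1, v2⟩), key _ (fun i => π (π i)) hs ?_ ?_ (Or.inr ?_)⟩
  · intro i hi
    rw [swap_val, if_neg (by omega), if_neg (by omega), hf i (by omega)]
  · intro i hi
    show (π * swap n (n + 1)) ((π * swap n (n + 1)) i) = π (π i)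
    rw [v3 i hi, v3 _ (v4 i hi)]
  · intro i hi
    exact v4 _ (v4 i hi)
  · constructor
    · show (π * swap n (n + 1)) ((π * swap n (n + 1)) n) = n
      rw [v1, v2]
    · show (π * swap n (n + 1)) ((π * swap n (n + 1)) (n + 1)) = n + 1
      rw [v2, v1]

lemma succ_mem {n : ℕ} {σ : Perm ℕ} (h : A n σ) : A (n + 1) σ := by
  obtain ⟨hf, ha, hs⟩ := h
  have key : ∀ f : ℕ → ℕ, Av n f → (∀ i, i < n → f i < n) → f n = n → Av (n + 1) f := by
    intro f hg h4 h3
    constructor
    · rintro i j k hij hjk hk ⟨h5, h6⟩
      rcases Nat.lt_or_ge k n with h7 | h7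
      · exact hg.1 i j k hij hjk h7 ⟨h5, h6⟩
      · have a1 : k = n := by omega
        have := h4 j (by omega)
        rw [a1, h3] at h5
        omega
    · rintro i j k l hij hjk hkl hl ⟨h5, h6, h7⟩
      rcases Nat.lt_or_ge l n with h8 | h8
      · exact hg.2 i j k l hij hjk hkl h8 ⟨h5, h6, h7⟩
      · have a1 : l = n := by omega
        have := h4 j (by omega)
        rw [a1, h3] at h6
        omega
  have v4 : ∀ i, i < n → σ i < n := fun i hi => lt_of_fix hf hi
  refine ⟨fun i hi => hf i (by omega), key _ ha v4 (hf n le_rfl),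
    key _ hs (fun i hi => v4 _ (v4 i hi)) ?_⟩
  show σ (σ n) = n
  rw [hf n le_rfl, hf n le_rfl]

lemma pred_mem {n : ℕ} {σ : Perm ℕ} (h : A (n + 1) σ) (hn : σ n = n) : A n σ := by
  obtain ⟨hf, ha, hs⟩ := h
  refine ⟨fun i hi => ?_, ⟨fun i j k h1 h2 h3 => ha.1 i j k h1 h2 (by omega),
    fun i j k l h1 h2 h3 h4 => ha.2 i j k l h1 h2 h3 (by omega)⟩,
    ⟨fun i j k h1 h2 h3 => hs.1 i j k h1 h2 (by omega),
    fun i j k l h1 h2 h3 h4 => hs.2 i j k l h1 h2 h3 (by omega)⟩⟩
  rcases (by omega : i = n ∨ n + 1 ≤ i) with h | h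
  · rw [h, hn]
  · exact hf i h

lemma unswap_mem {n : ℕ} {σ : Perm ℕ} (h : A (n + 2) σ) (h1 : σ n = n + 1) (h2 : σ (n + 1) = n) :
    A n (σ * swap n (n + 1)) := by
  obtain ⟨hf, ha, hs⟩ := h
  have v3 : ∀ i, i < n → (σ * swap n (n + 1)) i = σ i := by
    intro i hi
    rw [swap_val, if_neg (by omega), if_neg (by omega)]
  have fx : ∀ i, n ≤ i → (σ * swap n (n + 1)) i = i := by
    intro i hi
    rw [swap_val]
    rcases (by omega : i = n ∨ i = n + 1 ∨ n + 2 ≤ i) with h | h | h
    · rw [if_pos h, h2, h]
    · rw [if_neg (by omega), if_pos h, h1, h]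
    · rw [if_neg (by omega), if_neg (by omega), hf i h]
  have v4 : ∀ i, i < n → σ i < n := by
    intro i hi
    rw [← v3 i hi]
    exact lt_of_fix fx hi
  have key : ∀ f g : ℕ → ℕ, Av (n + 2) g → (∀ i, i < n → f i = g i) → Av n f := by
    intro f g hg h1
    constructor
    · rintro i j k hij hjk hk
      rw [h1 i (by omega), h1 j (by omega), h1 k hk]
      exact hg.1 i j k hij hjk (by omega)
    · rintro i j k l hij hjk hkl hl
      rw [h1 i (by omega), h1 j (by omega), h1 k (by omega), h1 l hl]
      exact hg.2 i j k l hij hjk hkl (by omega)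
  refine ⟨fx, key _ σ ha v3, key _ (fun i => σ (σ i)) hs ?_⟩
  intro i hi
  show (σ * swap n (n + 1)) ((σ * swap n (n + 1)) i) = σ (σ i)
  rw [v3 i hi, v3 _ (v4 i hi)]

/-- the recursion on the level of sets -/
lemma S_succ_succ (n : ℕ) :
    S (n + 2) = S (n + 1) ∪ (fun π => π * swap n (n + 1)) '' S n ∪ R n := by
  ext σ
  constructor
  · intro hσ
    have hA : A (n + 2) σ := hσ
    have hf := hA.1
    have hlt : σ (n + 1) < n + 2 := lt_of_fix hf (by omega)
    by_cases h1 : σ (n + 1) = n + 1
    · exact Or.inl (Or.inl (pred_mem hA h1))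
    by_cases h2 : σ (n + 1) = n
    · by_cases h3 : σ n = n + 1
      · refine Or.inl (Or.inr ⟨σ * swap n (n + 1), unswap_mem hA h3 h2, ?_⟩)
        show σ * swap n (n + 1) * swap n (n + 1) = σ
        rw [mul_assoc, swap_mul_self, mul_one]
      · obtain ⟨g1, g2⟩ := rotation_of_second hA (by omega) (by simpa using h2) (by simpa using h3)
        refine Or.inr ⟨n, by simp, ?_⟩
        show rot (n + 1) (n + 1 - n) = σ
        ext i
        rw [rot_apply]
        rcases (by omega : i = 0 ∨ (1 ≤ i ∧ i < n + 2) ∨ n + 2 ≤ i) with h | h | h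
        · rw [h, g1, if_pos (by omega)]; omega
        · rw [g2 i h.1 h.2, if_neg (by omega), if_pos (by omega)]; omega
        · rw [hf i h, if_neg (by omega), if_neg (by omega)]
    · obtain ⟨g1, g2, g3⟩ := rotation_of_small (b := σ (n + 1)) (c := n - σ (n + 1)) hA (by omega)
        (by omega) rfl
      refine Or.inr ⟨σ (n + 1), by simp; omega, ?_⟩
      show rot (σ (n + 1) + 1) (n + 1 - σ (n + 1)) = σ
      ext i
      rw [rot_apply]
      rcases (by omega : i < n - σ (n + 1) ∨ i = n - σ (n + 1) ∨
        (n - σ (n + 1) < i ∧ i < n + 2) ∨ n + 2 ≤ i) with h | h | h | h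
      · rw [g1 i h, if_pos (by omega)]; omega
      · rw [if_pos (by omega), h, g2]; omega
      · have := g3 (i - (n - σ (n + 1) + 1)) (by omega)
        rw [show n - σ (n + 1) + 1 + (i - (n - σ (n + 1) + 1)) = i by omega] at this
        rw [this, if_neg (by omega), if_pos (by omega)]; omega
      · rw [hf i h, if_neg (by omega), if_neg (by omega)]
  · rintro ((h | ⟨π, hπ, rfl⟩) | ⟨k, hk, rfl⟩)
    · exact succ_mem h
    · exact swap_mem hπ
    · have hk' : k < n + 1 := by simpa using hk
      have := rot_mem (k + 1) (n + 1 - k)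
      rw [show k + 1 + (n + 1 - k) = n + 2 by omega] at this
      exact this

lemma S_zero : S 0 = {1} := by
  ext σ
  constructor
  · intro h
    exact Equiv.ext fun i => h.1 i (Nat.zero_le i)
  · rintro rfl
    exact ⟨fun i _ => rfl, ⟨fun i j k _ _ h => by omega, fun i j k l _ _ _ h => by omega⟩,
      ⟨fun i j k _ _ h => by omega, fun i j k l _ _ _ h => by omega⟩⟩

lemma S_one : S 1 = {1} := by
  ext σ
  constructor
  · intro h
    refine Equiv.ext fun i => ?_
    rcases Nat.eq_zero_or_pos i with h0 | h0
    · have := lt_of_fix h.1 (i := 0) (by omega)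
      rw [h0]
      show σ 0 = 0
      omega
    · exact h.1 i h0
  · intro h
    have h0 : σ ∈ S 0 := by rw [S_zero]; exact h
    exact succ_mem h0

lemma R_ncard (n : ℕ) : (R n).ncard = n + 1 ∧ (R n).Finite := by
  have hinj : Set.InjOn (fun k => rot (k + 1) (n + 1 - k)) (Finset.range (n + 1) : Set ℕ) := by
    intro a ha b hb hab
    have ha' : a < n + 1 := by simpa using ha
    have hb' : b < n + 1 := by simpa using hb
    have := DFunLike.congr_fun hab (n + 1)
    simp only [rot_apply] at this
    split_ifs at this <;> omega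
  constructor
  · rw [R, hinj.ncard_image, Set.ncard_coe_finset, Finset.card_range]
  · exact (Finset.finite_toSet _).image _

lemma S_finite (n : ℕ) : (S n).Finite := by
  induction n using Nat.strong_induction_on with
  | _ n ih =>
    rcases n with _ | _ | n
    · rw [S_zero]; exact Set.finite_singleton _
    · rw [S_one]; exact Set.finite_singleton _
    · rw [S_succ_succ]
      exact ((ih (n + 1) (by omega)).union ((ih n (by omega)).image _)).union (R_ncard n).2

lemma S_rec (n : ℕ) (hn : 1 ≤ n) :
    (S (n + 2)).ncard = (S (n + 1)).ncard + (S n).ncard + (n + 1) := by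
  rw [S_succ_succ, Set.ncard_union_eq ?_ ?_ (R_ncard n).2, Set.ncard_union_eq ?_ (S_finite _) ?_,
    (R_ncard n).1, Set.ncard_image_of_injective _ (mul_left_injective _)]
  · rw [Set.disjoint_left]
    rintro σ h1 ⟨π, hπ, rfl⟩
    have e1 := h1.1 (n + 1) le_rfl
    have e2 : (π * swap n (n + 1)) (n + 1) = π n := by
      rw [swap_val, if_neg (by omega), if_pos rfl]
    have e3 := hπ.1 n le_rfl
    change (π * swap n (n + 1)) (n + 1) = n + 1 at e1
    omega
  · exact (S_finite n).image _
  · rw [Set.disjoint_left]
    rintro σ h1 ⟨k, hk, rfl⟩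
    have hk' : k < n + 1 := by simpa using hk
    rcases h1 with h1 | ⟨π, hπ, h1⟩
    · have e1 := h1.1 (n + 1) le_rfl
      simp only [rot_apply] at e1
      split_ifs at e1 <;> omega
    · have e1 := DFunLike.congr_fun h1 (n + 1)
      have e2 := DFunLike.congr_fun h1 n
      have e3 := hπ.1 n le_rfl
      have e4 := hπ.1 (n + 1) (by omega)
      change (π * swap n (n + 1)) (n + 1) = _ at e1
      change (π * swap n (n + 1)) n = _ at e2
      rw [swap_val, if_neg (by omega), if_pos rfl, e3] at e1
      rw [swap_val, if_pos rfl, e4] at e2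
      simp only [rot_apply] at e1 e2
      split_ifs at e1 e2 <;> omega
  · exact (S_finite _).union ((S_finite n).image _)

lemma S_two : (S 2).ncard = 2 := by
  rw [S_succ_succ, S_zero, S_one]
  have h : ({1} ∪ (fun π => π * swap 0 (0 + 1)) '' {1} ∪ R 0 : Set (Perm ℕ)) = {1, swap 0 1} := by
    ext σ
    simp only [R, Set.image_singleton, one_mul, zero_add, Finset.range_one, Finset.coe_singleton,
      Set.mem_union, Set.mem_singleton_iff, Set.mem_insert_iff]
    have h1 : rot 1 (1 - 0) = swap 0 1 := by
      ext i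
      rw [rot_apply, swap_apply_def]
      split_ifs <;> omega
    rw [h1]
    tauto
  rw [h, Set.ncard_pair]
  intro h1
  have := DFunLike.congr_fun h1 0
  simp at this

lemma S_ncard (n : ℕ) : (S (n + 1)).ncard + (n + 1) + 2 = 2 * Nat.fib (n + 3) ∧
    (S (n + 2)).ncard + (n + 2) + 2 = 2 * Nat.fib (n + 4) := by
  induction n with
  | zero =>
    constructor
    · rw [zero_add, S_one, Set.ncard_singleton]; rfl
    · rw [zero_add, S_two]; rfl
  | succ n ih =>
    refine ⟨ih.2, ?_⟩
    have h1 := S_rec (n + 1) (by omega)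
    have h2 : Nat.fib (n + 5) = Nat.fib (n + 3) + Nat.fib (n + 4) := Nat.fib_add_two
    rw [show n + 1 + 2 = n + 3 by omega] at *
    rw [show n + 1 + 4 = n + 5 by omega, h2]
    rw [show n + 1 + 1 = n + 2 by omega] at h1
    omega

lemma contains_321 {n : ℕ} (π : Perm (Fin n)) :
    Contains π ![3, 2, 1] ↔ ∃ i j k, i < j ∧ j < k ∧ π k < π j ∧ π j < π i := by
  constructor
  · rintro ⟨f, hf, h⟩
    refine ⟨f 0, f 1, f 2, hf (by decide), hf (by decide), (h 2 1).2 (by decide),
      (h 1 0).2 (by decide)⟩
  · rintro ⟨i, j, k, hij, hjk, h1, h2⟩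
    refine ⟨![i, j, k], ?_, ?_⟩
    · rw [Fin.strictMono_iff_lt_succ]
      intro a
      fin_cases a
      · exact hij
      · exact hjk
    · intro a b
      fin_cases a <;> fin_cases b <;> simp <;> order

lemma contains_1342 {n : ℕ} (π : Perm (Fin n)) :
    Contains π ![1, 3, 4, 2] ↔
      ∃ i j k l, i < j ∧ j < k ∧ k < l ∧ π i < π l ∧ π l < π j ∧ π j < π k := by
  constructor
  · rintro ⟨f, hf, h⟩
    exact ⟨f 0, f 1, f 2, f 3, hf (by decide), hf (by decide), hf (by decide),
      (h 0 3).2 (by decide), (h 3 1).2 (by decide), (h 1 2).2 (by decide)⟩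
  · rintro ⟨i, j, k, l, hij, hjk, hkl, h1, h2, h3⟩
    refine ⟨![i, j, k, l], ?_, ?_⟩
    · rw [Fin.strictMono_iff_lt_succ]
      intro a
      fin_cases a
      · exact hij
      · exact hjk
      · exact hkl
    · intro a b
      fin_cases a <;> fin_cases b <;> simp <;> order

/-- the equivalence of the permutations of `Fin n` and the permutations of `ℕ` which fix all
`i ≥ n` -/
noncomputable def toNat (n : ℕ) : Perm (Fin n) ≃ {f : Perm ℕ // ∀ a, ¬ a < n → f a = a} :=
  (Equiv.permCongr Fin.equivSubtype).trans (Equiv.Perm.subtypeEquivSubtypePerm (· < n))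

lemma toNat_apply {n : ℕ} (π : Perm (Fin n)) (i : Fin n) : (toNat n π).1 i = π i := by
  have h : (toNat n π).1 = Perm.ofSubtype (Equiv.permCongr Fin.equivSubtype π) := rfl
  rw [h]
  have h1 := Perm.ofSubtype_apply_coe (Equiv.permCongr Fin.equivSubtype π) (Fin.equivSubtype i)
  refine Eq.trans h1 ?_
  simp [Equiv.permCongr_apply]

lemma strongly_iff {n : ℕ} (π : Perm (Fin n)) : StronglyAvoids π ↔
    Av n (toNat n π).1 ∧ Av n fun i => (toNat n π).1 ((toNat n π).1 i) := by
  have key : ∀ (ρ : Perm (Fin n)) (f : ℕ → ℕ), (∀ i : Fin n, f i = ρ i) →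
      ((¬ Contains ρ ![3, 2, 1] ∧ ¬ Contains ρ ![1, 3, 4, 2]) ↔ Av n f) := by
    intro ρ f h
    rw [contains_321, contains_1342]
    constructor
    · rintro ⟨h1, h2⟩
      constructor
      · rintro i j k hij hjk hk ⟨h3, h4⟩
        apply h1
        refine ⟨⟨i, by omega⟩, ⟨j, by omega⟩, ⟨k, hk⟩, hij, hjk, ?_, ?_⟩
        · rw [Fin.lt_def, ← h, ← h]; exact h3
        · rw [Fin.lt_def, ← h, ← h]; exact h4
      · rintro i j k l hij hjk hkl hl ⟨h3, h4, h5⟩
        apply h2
        refine ⟨⟨i, by omega⟩, ⟨j, by omega⟩, ⟨k, by omega⟩, ⟨l, hl⟩, hij, hjk, hkl, ?_, ?_, ?_⟩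
        · rw [Fin.lt_def, ← h, ← h]; exact h3
        · rw [Fin.lt_def, ← h, ← h]; exact h4
        · rw [Fin.lt_def, ← h, ← h]; exact h5
    · rintro ⟨h1, h2⟩
      constructor
      · rintro ⟨i, j, k, hij, hjk, h3, h4⟩
        exact h1 i j k hij hjk k.2 ⟨by rw [h, h]; exact h3, by rw [h, h]; exact h4⟩
      · rintro ⟨i, j, k, l, hij, hjk, hkl, h3, h4, h5⟩
        exact h2 i j k l hij hjk hkl l.2 ⟨by rw [h, h]; exact h3, by rw [h, h]; exact h4,
          by rw [h, h]; exact h5⟩
  have e1 := key π (toNat n π).1 (toNat_apply π)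
  have e2 := key (π * π) (fun i => (toNat n π).1 ((toNat n π).1 i)) (fun i => by
    show (toNat n π).1 ((toNat n π).1 i) = _
    rw [toNat_apply, toNat_apply]
    rfl)
  unfold StronglyAvoids
  rw [← e1, ← e2, and_assoc]

/-- **The number of the permutations which strongly avoid `321` and `1342`.** For every `n ≥ 1`,
`|SAv_n(321, 1342)| = 2 F_{n+2} - n - 2`. -/
theorem result (n : ℕ) (hn : 1 ≤ n) :
    Nat.card {π : Perm (Fin n) // StronglyAvoids π} = 2 * Nat.fib (n + 2) - n - 2 ∧
      n + 2 ≤ 2 * Nat.fib (n + 2) := by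
  have h1 : Nat.card {π : Perm (Fin n) // StronglyAvoids π} = (S n).ncard := by
    rw [← Nat.card_coe_set_eq]
    refine Nat.card_congr ((Equiv.subtypeEquiv (toNat n) strongly_iff).trans
      ((Equiv.subtypeSubtypeEquivSubtypeInter (fun f : Perm ℕ => ∀ a, ¬ a < n → f a = a)
        (fun f : Perm ℕ => Av n f ∧ Av n fun i => f (f i))).trans
        (Equiv.subtypeEquivRight fun f => ?_)))
    show _ ↔ A n f
    unfold A
    simp only [not_lt]
  obtain ⟨m, rfl⟩ : ∃ m, n = m + 1 := ⟨n - 1, by omega⟩
  have h2 := (S_ncard m).1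
  rw [h1, show m + 1 + 2 = m + 3 by omega]
  omega

end Pool.Agent.Results.MP_aa036a_co.StrongAvoidance
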